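import Mathlib

/-!
# Exponential moments of quadratic forms in random signs

If `0 ≤ P ≤ 1` then the average of `exp (⟨P ε, ε⟩ / 4)` over all sign vectors is at most
`exp (tr P / 2)`.
-/

namespace Pool.Agent.BMLow

open Finset

/-- The sign of a boolean. -/
def sg (b : Bool) : ℝ := if b then 1 else -1

@[simp] theorem sg_true : sg true = 1 := rfl
@[simp] theorem sg_false : sg false = -1 := rfl

theorem sg_sq (b : Bool) : sg b ^ 2 = 1 := by cases b <;> simp

theorem sg_mul_self (b : Bool) : sg b * sg b = 1 := by cases b <;> simp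

/-- The quadratic form of a family `P i j`. -/
def qf {n : ℕ} (P : Fin n → Fin n → ℝ) (v : Fin n → ℝ) : ℝ := ∑ i, ∑ j, P i j * v i * v j

theorem qf_succ {n : ℕ} (P : Fin (n + 1) → Fin (n + 1) → ℝ) (hs : ∀ i j, P i j = P j i)
    (t : ℝ) (v : Fin n → ℝ) :
    qf P (Fin.cons t v) = P 0 0 * t ^ 2 + 2 * t * (∑ i, P 0 i.succ * v i) +
      qf (fun i j => P i.succ j.succ) v := by
  unfold qf
  rw [Fin.sum_univ_succ]
  simp only [Fin.sum_univ_succ, Fin.cons_zero, Fin.cons_succ, sum_add_distrib]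
  have h1 : ∑ i : Fin n, P 0 i.succ * t * v i = t * ∑ i : Fin n, P 0 i.succ * v i := by
    rw [mul_sum]; exact sum_congr rfl fun i _ => by ring
  have h2 : ∑ i : Fin n, P i.succ 0 * v i * t = t * ∑ i : Fin n, P 0 i.succ * v i := by
    rw [mul_sum]; exact sum_congr rfl fun i _ => by rw [hs i.succ 0]; ring
  rw [h1, h2]
  ring

theorem chaos_aux : ∀ (n : ℕ) (P : Fin n → Fin n → ℝ), (∀ i j, P i j = P j i) →
    (∀ v, 0 ≤ qf P v) → (∀ v, qf P v ≤ ∑ i, v i ^ 2) →
    ∑ ε : Fin n → Bool, Real.exp (qf P (fun i => sg (ε i)) / 4) ≤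
      2 ^ n * Real.exp ((∑ i, P i i) / 2) := by
  intro n
  induction n with
  | zero =>
    intro P _ _ _
    simp [qf]
  | succ n ih =>
    intro P hs h0 h1
    set b : Fin n → ℝ := fun i => P 0 i.succ with hb
    set P' : Fin n → Fin n → ℝ := fun i j => P i.succ j.succ with hP'
    set Q : Fin n → Fin n → ℝ := fun i j => P i.succ j.succ + (1 / 2) * (b i * b j) with hQ
    have hqQ : ∀ v, qf Q v = qf P' v + (1 / 2) * (∑ i, b i * v i) ^ 2 := by
      intro v
      have : (∑ i, b i * v i) ^ 2 = ∑ i, ∑ j, (b i * v i) * (b j * v j) := by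
        rw [sq, sum_mul_sum]
      rw [this, mul_sum]
      unfold qf
      rw [← sum_add_distrib]
      refine sum_congr rfl fun i _ => ?_
      rw [mul_sum, ← sum_add_distrib]
      refine sum_congr rfl fun j _ => ?_
      simp only [hQ, hP']
      ring
    have hkey : ∀ (t : ℝ) (v : Fin n → ℝ), qf P (Fin.cons t v) = P 0 0 * t ^ 2 +
        2 * t * (∑ i, b i * v i) + qf P' v := fun t v => qf_succ P hs t v
    have hsq : ∀ (t : ℝ) (v : Fin n → ℝ),
        ∑ i : Fin (n + 1), (Fin.cons t v : Fin (n + 1) → ℝ) i ^ 2 = t ^ 2 + ∑ i, v i ^ 2 := by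
      intro t v
      rw [Fin.sum_univ_succ]
      simp
    have hP00 : 0 ≤ P 0 0 := by
      have := h0 (Fin.cons 1 0)
      rw [hkey] at this
      simpa [qf] using this
    have hup : ∀ v : Fin n → ℝ, qf P' v + (∑ i, b i * v i) ^ 2 * (1 + P 0 0) ≤ ∑ i, v i ^ 2 := by
      intro v
      have := h1 (Fin.cons (∑ i, b i * v i) v)
      rw [hkey, hsq] at this
      nlinarith [this]
    have hbb : ∑ i, b i ^ 2 ≤ P 0 0 := by
      have e1 := h0 (Fin.cons (-1) b)
      rw [hkey] at e1
      have e2 := hup b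
      have e3 : ∑ i, b i * b i = ∑ i, b i ^ 2 := sum_congr rfl fun i _ => by ring
      rw [e3] at e1 e2
      nlinarith [sq_nonneg (∑ i, b i ^ 2), mul_nonneg (sq_nonneg (∑ i, b i ^ 2)) hP00]
    have hQs : ∀ i j, Q i j = Q j i := by
      intro i j
      simp only [hQ]
      rw [hs i.succ j.succ]
      ring
    have hQ0 : ∀ v, 0 ≤ qf Q v := by
      intro v
      rw [hqQ]
      have := h0 (Fin.cons 0 v)
      rw [hkey] at this
      have h2 : 0 ≤ qf P' v := by simpa using this
      positivity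
    have hQ1 : ∀ v, qf Q v ≤ ∑ i, v i ^ 2 := by
      intro v
      rw [hqQ]
      have := hup v
      nlinarith [sq_nonneg (∑ i, b i * v i), mul_nonneg (sq_nonneg (∑ i, b i * v i)) hP00]
    have hih := ih Q hQs hQ0 hQ1
    -- splitting of the sum
    have hsplit : ∑ ε : Fin (n + 1) → Bool, Real.exp (qf P (fun i => sg (ε i)) / 4) =
        ∑ ε : Fin n → Bool, ∑ x : Bool, Real.exp ((P 0 0 + 2 * sg x * (∑ i, b i * sg (ε i)) +
          qf P' (fun i => sg (ε i))) / 4) := by
      rw [← (Fin.consEquiv (fun _ : Fin (n + 1) => Bool)).sum_comp, Fintype.sum_prod_type,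
        sum_comm]
      refine sum_congr rfl fun ε _ => sum_congr rfl fun x _ => ?_
      have : (fun i => sg ((Fin.consEquiv (fun _ : Fin (n + 1) => Bool)) (x, ε) i)) =
          (Fin.cons (sg x) (fun i => sg (ε i)) : Fin (n + 1) → ℝ) := by
        funext i
        refine Fin.cases ?_ (fun j => ?_) i
        · simp [Fin.consEquiv]
        · simp [Fin.consEquiv]
      rw [this, hkey, sg_sq]
      ring_nf
    rw [hsplit]
    have hpt : ∀ ε : Fin n → Bool, ∑ x : Bool, Real.exp ((P 0 0 + 2 * sg x *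
        (∑ i, b i * sg (ε i)) + qf P' (fun i => sg (ε i))) / 4) ≤
        2 * Real.exp (P 0 0 / 4) * Real.exp (qf Q (fun i => sg (ε i)) / 4) := by
      intro ε
      set u : ℝ := ∑ i, b i * sg (ε i) with hu
      rw [hqQ, Fintype.sum_bool, sg_true, sg_false]
      have e1 : Real.exp ((P 0 0 + 2 * 1 * u + qf P' (fun i => sg (ε i))) / 4) =
          Real.exp (P 0 0 / 4) * Real.exp (qf P' (fun i => sg (ε i)) / 4) * Real.exp (u / 2) := by
        rw [← Real.exp_add, ← Real.exp_add]; ring_nf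
      have e2 : Real.exp ((P 0 0 + 2 * -1 * u + qf P' (fun i => sg (ε i))) / 4) =
          Real.exp (P 0 0 / 4) * Real.exp (qf P' (fun i => sg (ε i)) / 4) * Real.exp (-(u / 2)) := by
        rw [← Real.exp_add, ← Real.exp_add]; ring_nf
      have e3 : Real.exp ((qf P' (fun i => sg (ε i)) + 1 / 2 * (∑ i, b i * sg (ε i)) ^ 2) / 4) =
          Real.exp (qf P' (fun i => sg (ε i)) / 4) * Real.exp ((u / 2) ^ 2 / 2) := by
        rw [← Real.exp_add, ← hu]; ring_nf
      rw [e1, e2, e3]
      have e4 : Real.exp (u / 2) + Real.exp (-(u / 2)) ≤ 2 * Real.exp ((u / 2) ^ 2 / 2) := by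
        have := Real.cosh_le_exp_half_sq (u / 2)
        rw [Real.cosh_eq] at this
        linarith
      have e5 : 0 ≤ Real.exp (P 0 0 / 4) * Real.exp (qf P' (fun i => sg (ε i)) / 4) := by positivity
      nlinarith [mul_le_mul_of_nonneg_left e4 e5]
    refine (sum_le_sum fun ε _ => hpt ε).trans ?_
    rw [← mul_sum]
    refine (mul_le_mul_of_nonneg_left hih (by positivity)).trans ?_
    have e6 : (∑ i, Q i i) = (∑ i : Fin n, P i.succ i.succ) + (1 / 2) * ∑ i, b i ^ 2 := by
      rw [mul_sum, ← sum_add_distrib]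
      exact sum_congr rfl fun i _ => by simp only [hQ]; ring
    have e7 : P 0 0 / 4 + (∑ i, Q i i) / 2 ≤ (∑ i, P i i) / 2 := by
      rw [e6, Fin.sum_univ_succ (fun i => P i i)]
      linarith
    calc 2 * Real.exp (P 0 0 / 4) * (2 ^ n * Real.exp ((∑ i, Q i i) / 2))
        = 2 ^ (n + 1) * Real.exp (P 0 0 / 4 + (∑ i, Q i i) / 2) := by
          rw [Real.exp_add]; ring
      _ ≤ 2 ^ (n + 1) * Real.exp ((∑ i, P i i) / 2) := by
          have := Real.exp_le_exp.2 e7
          gcongr

end Pool.Agent.BMLow
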