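import Pool.Agent.Helper31.LB.Chaos

/-!
# Many random sign vectors see every matrix

For `N ≥ C n² log n` random sign vectors `σ₁, …, σ_N` of `ℝⁿ`, with high probability every real
`n × n` matrix with rows `α_i` satisfies `max_l ∑ |⟨α_i, σ_l⟩| ≥ (1/8) ∑ |α_i|`.
-/

namespace Pool.Agent.BMLow

open Finset

/-- The linear form `⟨a, ε⟩` of a sign vector. -/
def lf {n : ℕ} (a : Fin n → ℝ) (ε : Fin n → Bool) : ℝ := ∑ j, a j * sg (ε j)

/-- The euclidean length of a vector. -/
noncomputable def len {n : ℕ} (a : Fin n → ℝ) : ℝ := Real.sqrt (∑ j, a j ^ 2)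

theorem len_nonneg {n : ℕ} (a : Fin n → ℝ) : 0 ≤ len a := Real.sqrt_nonneg _

theorem len_sq {n : ℕ} (a : Fin n → ℝ) : len a ^ 2 = ∑ j, a j ^ 2 :=
  Real.sq_sqrt (sum_nonneg fun _ _ => sq_nonneg _)

theorem sum_bool_cons {n : ℕ} (F : (Fin (n + 1) → Bool) → ℝ) :
    ∑ ε : Fin (n + 1) → Bool, F ε =
      ∑ ε : Fin n → Bool, (F (Fin.cons true ε) + F (Fin.cons false ε)) := by
  rw [← (Fin.consEquiv (fun _ : Fin (n + 1) => Bool)).sum_comp, Fintype.sum_prod_type, sum_comm]
  refine sum_congr rfl fun ε _ => ?_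
  rw [Fintype.sum_bool]
  rfl

theorem lf_cons {n : ℕ} (a : Fin (n + 1) → ℝ) (x : Bool) (ε : Fin n → Bool) :
    lf a (Fin.cons x ε) = a 0 * sg x + lf (fun i => a i.succ) ε := by
  unfold lf
  rw [Fin.sum_univ_succ]
  simp

theorem sum_lf_sq : ∀ (n : ℕ) (a : Fin n → ℝ),
    ∑ ε : Fin n → Bool, lf a ε ^ 2 = 2 ^ n * ∑ j, a j ^ 2 := by
  intro n
  induction n with
  | zero => intro a; simp [lf]
  | succ n ih =>
    intro a
    rw [sum_bool_cons]
    have : ∀ ε : Fin n → Bool, lf a (Fin.cons true ε) ^ 2 + lf a (Fin.cons false ε) ^ 2 =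
        2 * a 0 ^ 2 + 2 * lf (fun i => a i.succ) ε ^ 2 := by
      intro ε
      rw [lf_cons, lf_cons, sg_true, sg_false]
      ring
    rw [sum_congr rfl fun ε _ => this ε, sum_add_distrib, ← mul_sum, ← mul_sum, ih,
      Fin.sum_univ_succ]
    simp only [sum_const, card_univ, Fintype.card_pi, Fintype.card_bool, prod_const,
      Fintype.card_fin, nsmul_eq_mul, Nat.cast_pow, Nat.cast_ofNat]
    ring

theorem sum_lf_four : ∀ (n : ℕ) (a : Fin n → ℝ),
    ∑ ε : Fin n → Bool, lf a ε ^ 4 ≤ 3 * 2 ^ n * (∑ j, a j ^ 2) ^ 2 := by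
  intro n
  induction n with
  | zero => intro a; simp [lf]
  | succ n ih =>
    intro a
    rw [sum_bool_cons]
    have : ∀ ε : Fin n → Bool, lf a (Fin.cons true ε) ^ 4 + lf a (Fin.cons false ε) ^ 4 =
        2 * a 0 ^ 4 + 12 * a 0 ^ 2 * lf (fun i => a i.succ) ε ^ 2 +
          2 * lf (fun i => a i.succ) ε ^ 4 := by
      intro ε
      rw [lf_cons, lf_cons, sg_true, sg_false]
      ring
    rw [sum_congr rfl fun ε _ => this ε, sum_add_distrib, sum_add_distrib, ← mul_sum, ← mul_sum,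
      ← mul_sum, sum_lf_sq, Fin.sum_univ_succ]
    simp only [sum_const, card_univ, Fintype.card_pi, Fintype.card_bool, prod_const,
      Fintype.card_fin, nsmul_eq_mul, Nat.cast_pow, Nat.cast_ofNat]
    have h := ih (fun i => a i.succ)
    set S := ∑ i : Fin n, a i.succ ^ 2
    set T := ∑ ε : Fin n → Bool, lf (fun i => a i.succ) ε ^ 4
    have h2 : (0 : ℝ) < 2 ^ n := by positivity
    have h3 : (2 : ℝ) ^ (n + 1) = 2 * 2 ^ n := by ring
    rw [h3]
    nlinarith [mul_nonneg h2.le (sq_nonneg (a 0 ^ 2))]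

theorem abs_lower (x : ℝ) : x ^ 2 - 4 / 27 * x ^ 4 ≤ |x| := by
  have h : 0 ≤ (|x| - 3 / 2) ^ 2 * (4 * |x| + 12) * |x| := by positivity
  have h2 : x ^ 2 = |x| ^ 2 := (sq_abs x).symm
  have h4 : x ^ 4 = |x| ^ 4 := by
    rw [show x ^ 4 = (x ^ 2) ^ 2 by ring, h2]; ring
  rw [h2, h4]
  nlinarith [h]

/-- Khintchine's inequality with constant `5/9`. -/
theorem sum_abs_lf {n : ℕ} (a : Fin n → ℝ) :
    2 ^ n * (5 / 9 * len a) ≤ ∑ ε : Fin n → Bool, |lf a ε| := by
  rcases (len_nonneg a).eq_or_lt with h0 | h0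
  · rw [← h0]
    simpa using sum_nonneg fun (ε : Fin n → Bool) _ => abs_nonneg (lf a ε)
  set L := len a with hL
  have h1 : ∀ ε : Fin n → Bool, (lf a ε ^ 2 / L - 4 / 27 * (lf a ε ^ 4 / L ^ 3)) ≤ |lf a ε| := by
    intro ε
    have := abs_lower (lf a ε / L)
    have h2 : L * ((lf a ε / L) ^ 2 - 4 / 27 * (lf a ε / L) ^ 4) ≤ L * |lf a ε / L| :=
      mul_le_mul_of_nonneg_left this h0.le
    rw [abs_div, abs_of_pos h0] at h2
    have h3 : L * (|lf a ε| / L) = |lf a ε| := by field_simp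
    rw [h3] at h2
    refine le_trans (le_of_eq ?_) h2
    field_simp
  refine le_trans ?_ (sum_le_sum fun ε _ => h1 ε)
  rw [sum_sub_distrib, ← mul_sum, ← sum_div, ← sum_div, sum_lf_sq]
  have h4 := sum_lf_four n a
  rw [← len_sq] at h4 ⊢
  have h5 : (∑ ε : Fin n → Bool, lf a ε ^ 4) / L ^ 3 ≤ 3 * 2 ^ n * L := by
    rw [div_le_iff₀ (by positivity)]
    refine h4.trans (le_of_eq ?_)
    rw [← hL]; ring
  have h6 : 2 ^ n * len a ^ 2 / L = 2 ^ n * L := by
    rw [← hL]; field_simp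
  rw [h6]
  nlinarith [h5]

/-- The function `∑ |⟨α_i, ε⟩|`. -/
def ff {n : ℕ} (A : Fin n → Fin n → ℝ) (ε : Fin n → Bool) : ℝ := ∑ i, |lf (A i) ε|

/-- The sum of the lengths of the rows. -/
noncomputable def nm {n : ℕ} (A : Fin n → Fin n → ℝ) : ℝ := ∑ i, len (A i)

theorem ff_nonneg {n : ℕ} (A : Fin n → Fin n → ℝ) (ε : Fin n → Bool) : 0 ≤ ff A ε :=
  sum_nonneg fun _ _ => abs_nonneg _

theorem nm_nonneg {n : ℕ} (A : Fin n → Fin n → ℝ) : 0 ≤ nm A :=
  sum_nonneg fun _ _ => len_nonneg _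

theorem sum_ff_sq {n : ℕ} (A : Fin n → Fin n → ℝ) :
    ∑ ε : Fin n → Bool, ff A ε ^ 2 ≤ 2 ^ n * nm A ^ 2 := by
  have h1 : ∀ ε : Fin n → Bool, ff A ε ^ 2 = ∑ i, ∑ j, |lf (A i) ε| * |lf (A j) ε| := by
    intro ε
    unfold ff
    rw [sq, sum_mul_sum]
  have h2 : nm A ^ 2 = ∑ i, ∑ j, len (A i) * len (A j) := by
    unfold nm
    rw [sq, sum_mul_sum]
  rw [sum_congr rfl fun ε _ => h1 ε, h2, sum_comm, mul_sum]
  refine sum_le_sum fun i _ => ?_
  rw [sum_comm, mul_sum]
  refine sum_le_sum fun j _ => ?_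
  have hcs := Finset.sum_mul_sq_le_sq_mul_sq (univ : Finset (Fin n → Bool))
    (fun ε => |lf (A i) ε|) (fun ε => |lf (A j) ε|)
  simp only [sq_abs] at hcs
  rw [sum_lf_sq, sum_lf_sq, ← len_sq, ← len_sq] at hcs
  have h3 : (∑ ε : Fin n → Bool, |lf (A i) ε| * |lf (A j) ε|) ^ 2 ≤
      (2 ^ n * (len (A i) * len (A j))) ^ 2 := by
    refine hcs.trans (le_of_eq ?_)
    ring
  exact (le_abs_self _).trans (abs_le_of_sq_le_sq h3 (mul_nonneg (by positivity)
    (mul_nonneg (len_nonneg _) (len_nonneg _))))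

theorem sum_ff {n : ℕ} (A : Fin n → Fin n → ℝ) :
    2 ^ n * (5 / 9 * nm A) ≤ ∑ ε : Fin n → Bool, ff A ε := by
  unfold ff nm
  rw [sum_comm, mul_sum, mul_sum]
  exact sum_le_sum fun i _ => sum_abs_lf (A i)

/-- Paley-Zygmund: few sign vectors have a small value. -/
theorem card_small {n : ℕ} (A : Fin n → Fin n → ℝ) :
    ((univ.filter fun ε : Fin n → Bool => ff A ε < 1 / 4 * nm A).card : ℝ) ≤
      10 / 11 * 2 ^ n := by
  classical
  set B := univ.filter fun ε : Fin n → Bool => ff A ε < 1 / 4 * nm A with hB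
  set G := univ.filter fun ε : Fin n → Bool => ¬ ff A ε < 1 / 4 * nm A with hG
  have hcard : (B.card : ℝ) + G.card = 2 ^ n := by
    have := Finset.card_filter_add_card_filter_not (s := (univ : Finset (Fin n → Bool)))
      (fun ε => ff A ε < 1 / 4 * nm A)
    rw [← hB, ← hG] at this
    have h2 : (univ : Finset (Fin n → Bool)).card = 2 ^ n := by simp
    rw [h2] at this
    exact_mod_cast this
  rcases (nm_nonneg A).eq_or_lt with h0 | h0
  · have : B = ∅ := by
      rw [hB]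
      refine filter_eq_empty_iff.2 fun ε _ => ?_
      rw [← h0]
      simpa using ff_nonneg A ε
    rw [this]
    simp only [card_empty, Nat.cast_zero]
    positivity
  have hs : ∑ ε ∈ B, ff A ε + ∑ ε ∈ G, ff A ε = ∑ ε : Fin n → Bool, ff A ε :=
    Finset.sum_filter_add_sum_filter_not _ _ _
  have hb : ∑ ε ∈ B, ff A ε ≤ 2 ^ n * (1 / 4 * nm A) := by
    have h1 : ∑ ε ∈ B, ff A ε ≤ ∑ ε ∈ B, (1 / 4 * nm A) :=
      sum_le_sum fun ε hε => (mem_filter.1 hε).2.le
    rw [sum_const, nsmul_eq_mul] at h1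
    refine h1.trans (mul_le_mul_of_nonneg_right ?_ (by positivity))
    have : (0 : ℝ) ≤ G.card := Nat.cast_nonneg _
    linarith
  have hg : 2 ^ n * (11 / 36 * nm A) ≤ ∑ ε ∈ G, ff A ε := by
    have := sum_ff A
    nlinarith
  have hcs : (∑ ε ∈ G, ff A ε) ^ 2 ≤ G.card * (2 ^ n * nm A ^ 2) := by
    have h1 := Finset.sum_mul_sq_le_sq_mul_sq G (fun _ => (1 : ℝ)) (fun ε => ff A ε)
    simp only [one_mul, one_pow, sum_const, nsmul_eq_mul, mul_one] at h1
    refine h1.trans (mul_le_mul_of_nonneg_left ?_ (Nat.cast_nonneg _))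
    refine le_trans ?_ (sum_ff_sq A)
    exact sum_le_sum_of_subset_of_nonneg (filter_subset _ _) fun _ _ _ => sq_nonneg _
  have h2n : (0 : ℝ) < 2 ^ n := by positivity
  have h3 : (2 ^ n * (11 / 36 * nm A)) ^ 2 ≤ G.card * (2 ^ n * nm A ^ 2) :=
    (pow_le_pow_left₀ (by positivity) hg 2).trans hcs
  have h4 : 2 ^ n * (11 / 36) ^ 2 ≤ (G.card : ℝ) := by
    have h5 : (2 ^ n * (11 / 36) ^ 2) * (2 ^ n * nm A ^ 2) ≤ G.card * (2 ^ n * nm A ^ 2) := by
      refine le_trans (le_of_eq ?_) h3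
      ring
    exact le_of_mul_le_mul_right h5 (by positivity)
  nlinarith

/-- The grid point of an index. -/
noncomputable def grid {n : ℕ} (K : ℕ) (b : Fin n → Fin n → Fin (2 * K + 1)) :
    Fin n → Fin n → ℝ := fun i j => (((b i j : ℕ) : ℝ) - K) / K

theorem exists_grid {n : ℕ} {K : ℕ} (hK : 0 < K) (A : Fin n → Fin n → ℝ)
    (hA : ∀ i j, |A i j| ≤ 1) :
    ∃ b : Fin n → Fin n → Fin (2 * K + 1), ∀ i j, |A i j - grid K b i j| ≤ 1 / K := by
  have hK' : (0 : ℝ) < K := by exact_mod_cast hK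
  have hex : ∀ x : ℝ, |x| ≤ 1 → ∃ b : Fin (2 * K + 1), |x - (((b : ℕ) : ℝ) - K) / K| ≤ 1 / K := by
    intro x hx
    obtain ⟨hx1, hx2⟩ := abs_le.1 hx
    have h0 : 0 ≤ (K : ℝ) * x + K := by nlinarith
    have hle : (K : ℝ) * x + K ≤ 2 * K := by nlinarith
    refine ⟨⟨⌊(K : ℝ) * x + K⌋₊, ?_⟩, ?_⟩
    · have : ⌊(K : ℝ) * x + K⌋₊ ≤ 2 * K := by
        refine Nat.floor_le_of_le ?_
        push_cast
        exact hle
      omega
    · have h1 := Nat.floor_le h0
      have h2 := Nat.lt_floor_add_one ((K : ℝ) * x + K)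
      simp only
      have h3 : x - ((⌊(K : ℝ) * x + K⌋₊ : ℝ) - K) / K =
          ((K : ℝ) * x + K - ⌊(K : ℝ) * x + K⌋₊) / K := by
        field_simp
        ring
      rw [h3, abs_div, abs_of_pos hK']
      refine div_le_div_of_nonneg_right ?_ hK'.le
      rw [abs_le]
      constructor <;> linarith
  choose! g hg using hex
  exact ⟨fun i j => g (A i j), fun i j => hg _ (hA i j)⟩

theorem len_le_of_abs {n : ℕ} (a : Fin n → ℝ) {t : ℝ} (ht : 0 ≤ t) (h : ∀ j, |a j| ≤ t) :
    len a ≤ n * t := by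
  have h1 : ∑ j, a j ^ 2 ≤ (n * t) ^ 2 := by
    have : ∑ j, a j ^ 2 ≤ ∑ _j : Fin n, t ^ 2 :=
      sum_le_sum fun j _ => by
        rw [← sq_abs]; exact pow_le_pow_left₀ (abs_nonneg _) (h j) 2
    rw [sum_const, card_univ, Fintype.card_fin, nsmul_eq_mul] at this
    rcases Nat.eq_zero_or_pos n with rfl | hn
    · simp
    have h2 : (1 : ℝ) ≤ n := by exact_mod_cast hn
    nlinarith [mul_nonneg (sub_nonneg.2 h2) (mul_nonneg (by linarith : (0 : ℝ) ≤ n) (sq_nonneg t))]
  exact Real.sqrt_le_iff.2 ⟨by positivity, h1⟩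

theorem len_add_le {n : ℕ} (a b : Fin n → ℝ) : len (fun j => a j + b j) ≤ len a + len b := by
  refine Real.sqrt_le_iff.2 ⟨add_nonneg (len_nonneg _) (len_nonneg _), ?_⟩
  have hcs := Finset.sum_mul_sq_le_sq_mul_sq (univ : Finset (Fin n)) a b
  rw [← len_sq, ← len_sq] at hcs
  have h1 : ∑ j, a j * b j ≤ len a * len b := by
    have : (∑ j, a j * b j) ^ 2 ≤ (len a * len b) ^ 2 := by
      refine hcs.trans (le_of_eq ?_); ring
    exact (le_abs_self _).trans
      (abs_le_of_sq_le_sq this (mul_nonneg (len_nonneg _) (len_nonneg _)))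
  have h2 : ∑ j, (a j + b j) ^ 2 = ∑ j, a j ^ 2 + 2 * ∑ j, a j * b j + ∑ j, b j ^ 2 := by
    rw [mul_sum, ← sum_add_distrib, ← sum_add_distrib]
    exact sum_congr rfl fun j _ => by ring
  rw [h2, ← len_sq, ← len_sq]
  nlinarith

theorem abs_le_len {n : ℕ} (a : Fin n → ℝ) (j : Fin n) : |a j| ≤ len a := by
  refine Real.le_sqrt_of_sq_le ?_
  rw [sq_abs]
  exact single_le_sum (f := fun j => a j ^ 2) (fun _ _ => sq_nonneg _) (mem_univ j)

theorem len_smul {n : ℕ} (a : Fin n → ℝ) {t : ℝ} (ht : 0 ≤ t) :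
    len (fun j => t * a j) = t * len a := by
  unfold len
  have : ∑ j, (t * a j) ^ 2 = t ^ 2 * ∑ j, a j ^ 2 := by
    rw [mul_sum]; exact sum_congr rfl fun j _ => by ring
  rw [this, Real.sqrt_mul (sq_nonneg _), Real.sqrt_sq ht]

/-- **Claim A.** All but a small proportion of the families of `N` sign vectors see every
matrix. -/
theorem card_bad_le {n N : ℕ} (hn : 0 < n) (hN : 0 < N) :
    (Nat.card {σ : Fin N → Fin n → Bool // ∃ A : Fin n → Fin n → ℝ,
      ∀ l, ff A (σ l) < 1 / 8 * nm A} : ℝ) ≤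
      ((2 * (16 * n ^ 2) + 1 : ℕ) : ℝ) ^ (n * n) * (10 / 11 * 2 ^ n) ^ N := by
  classical
  set K : ℕ := 16 * n ^ 2 with hK
  have hK0 : 0 < K := by positivity
  have hKr : (0 : ℝ) < K := by exact_mod_cast hK0
  have hnr : (1 : ℝ) ≤ n := by exact_mod_cast hn
  -- the sets
  set S : (Fin n → Fin n → Fin (2 * K + 1)) → Finset (Fin N → Fin n → Bool) := fun b =>
    Fintype.piFinset fun _ => univ.filter fun ε : Fin n → Bool =>
      ff (grid K b) ε < 1 / 4 * nm (grid K b) with hS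
  have hcardS : ∀ b, ((S b).card : ℝ) ≤ (10 / 11 * 2 ^ n) ^ N := by
    intro b
    simp only [hS, Fintype.card_piFinset, prod_const, card_univ, Fintype.card_fin, Nat.cast_pow]
    exact pow_le_pow_left₀ (Nat.cast_nonneg _) (card_small _) N
  have hsub : ∀ σ : Fin N → Fin n → Bool, (∃ A : Fin n → Fin n → ℝ,
      ∀ l, ff A (σ l) < 1 / 8 * nm A) → σ ∈ univ.biUnion S := by
    rintro σ ⟨A, hA⟩
    have hnmA : 0 < nm A := by
      by_contra hcon
      have h0 : nm A = 0 := le_antisymm (not_lt.1 hcon) (nm_nonneg A)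
      have := hA ⟨0, hN⟩
      rw [h0] at this
      have h1 := ff_nonneg A (σ ⟨0, hN⟩)
      linarith
    -- normalise
    set t : ℝ := (nm A)⁻¹ with ht
    have ht0 : 0 < t := inv_pos.2 hnmA
    set A' : Fin n → Fin n → ℝ := fun i j => t * A i j with hA'
    have hnm' : nm A' = 1 := by
      have : nm A' = t * nm A := by
        unfold nm
        rw [mul_sum]
        exact sum_congr rfl fun i _ => len_smul (A i) ht0.le
      rw [this, ht]
      exact inv_mul_cancel₀ hnmA.ne'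
    have hff' : ∀ ε, ff A' ε = t * ff A ε := by
      intro ε
      unfold ff
      rw [mul_sum]
      refine sum_congr rfl fun i _ => ?_
      have : lf (A' i) ε = t * lf (A i) ε := by
        unfold lf
        rw [mul_sum]
        exact sum_congr rfl fun j _ => by simp only [hA']; ring
      rw [this, abs_mul, abs_of_pos ht0]
    have hA1 : ∀ l, ff A' (σ l) < 1 / 8 := by
      intro l
      rw [hff']
      have := mul_lt_mul_of_pos_left (hA l) ht0
      have h2 : t * (1 / 8 * nm A) = 1 / 8 := by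
        rw [ht]; field_simp
      linarith
    have hent : ∀ i j, |A' i j| ≤ 1 := by
      intro i j
      refine (abs_le_len (A' i) j).trans ?_
      rw [← hnm']
      exact single_le_sum (f := fun i => len (A' i)) (fun _ _ => len_nonneg _) (mem_univ i)
    obtain ⟨b, hb⟩ := exists_grid hK0 A' hent
    refine mem_biUnion.2 ⟨b, mem_univ _, ?_⟩
    simp only [hS, Fintype.mem_piFinset, mem_filter, mem_univ, true_and]
    intro l
    have hKn : (K : ℝ) = 16 * n ^ 2 := by rw [hK]; push_cast; ring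
    have e1 : ff (grid K b) (σ l) ≤ ff A' (σ l) + 1 / 16 := by
      have h1 : ∀ i, |lf (grid K b i) (σ l)| ≤ |lf (A' i) (σ l)| + n * (1 / K) := by
        intro i
        have h2 : lf (grid K b i) (σ l) = lf (A' i) (σ l) -
            ∑ j, (A' i j - grid K b i j) * sg (σ l j) := by
          unfold lf
          rw [← sum_sub_distrib]
          exact sum_congr rfl fun j _ => by ring
        have h3 : |∑ j, (A' i j - grid K b i j) * sg (σ l j)| ≤ n * (1 / K) := by
          refine (abs_sum_le_sum_abs _ _).trans ?_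
          have : ∑ j, |(A' i j - grid K b i j) * sg (σ l j)| ≤ ∑ _j : Fin n, (1 / K : ℝ) := by
            refine sum_le_sum fun j _ => ?_
            rw [abs_mul]
            have h4 : |sg (σ l j)| = 1 := by
              cases σ l j <;> simp
            rw [h4, mul_one]
            exact hb i j
          refine this.trans (le_of_eq ?_)
          rw [sum_const, card_univ, Fintype.card_fin, nsmul_eq_mul]
        rw [h2]
        refine (abs_sub _ _).trans ?_
        linarith
      unfold ff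
      refine (sum_le_sum fun i _ => h1 i).trans (le_of_eq ?_)
      rw [sum_add_distrib, sum_const, card_univ, Fintype.card_fin, nsmul_eq_mul, hKn]
      have hn0 : (n : ℝ) ≠ 0 := by positivity
      congr 1
      field_simp
    have e2 : nm A' ≤ nm (grid K b) + 1 / 16 := by
      have h1 : ∀ i, len (A' i) ≤ len (grid K b i) + n * (1 / K) := by
        intro i
        have h2 : A' i = fun j => grid K b i j + (A' i j - grid K b i j) := by
          funext j; ring
        rw [h2]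
        refine (len_add_le _ _).trans (add_le_add_right ?_ _)
        refine len_le_of_abs _ (by positivity) fun j => ?_
        have := hb i j
        rw [show A' i j = grid K b i j + (A' i j - grid K b i j) by ring] at this
        simpa using hb i j
      unfold nm
      refine (sum_le_sum fun i _ => h1 i).trans (le_of_eq ?_)
      rw [sum_add_distrib, sum_const, card_univ, Fintype.card_fin, nsmul_eq_mul, hKn]
      have hn0 : (n : ℝ) ≠ 0 := by positivity
      congr 1
      field_simp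
    have := hA1 l
    rw [hnm'] at e2
    linarith
  have hcard : (Nat.card {σ : Fin N → Fin n → Bool // ∃ A : Fin n → Fin n → ℝ,
      ∀ l, ff A (σ l) < 1 / 8 * nm A}) ≤ (univ.biUnion S).card := by
    rw [Nat.card_eq_fintype_card, Fintype.card_subtype]
    exact card_le_card fun σ hσ => hsub σ (mem_filter.1 hσ).2
  calc (Nat.card {σ : Fin N → Fin n → Bool // ∃ A : Fin n → Fin n → ℝ,
      ∀ l, ff A (σ l) < 1 / 8 * nm A} : ℝ) ≤ ((univ.biUnion S).card : ℝ) := by exact_mod_cast hcard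
    _ ≤ ∑ b, ((S b).card : ℝ) := by exact_mod_cast card_biUnion_le
    _ ≤ ∑ _b : Fin n → Fin n → Fin (2 * K + 1), (10 / 11 * 2 ^ n) ^ N :=
        sum_le_sum fun b _ => hcardS b
    _ = _ := by
        rw [sum_const, nsmul_eq_mul, card_univ]
        simp only [Fintype.card_pi, Fintype.card_fin, prod_const, card_univ, Nat.cast_pow]
        rw [← pow_mul]

end Pool.Agent.BMLow
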